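import Pool.Agent.Y505.RM.Loc

/-!
# The twelve variable form as a polynomial
-/

set_option autoImplicit false

namespace Pool.Agent.Y505.RM

open MvPolynomial
open Pool.Agent.Y505.RL (DV)

/-- index of the `j`-th variable of the `i`-th block -/
def blk (i j : Fin 3) : Fin 12 := ⟨3 * i.val + j.val, by omega⟩

lemma coord_cases (i : Fin 12) : (∃ j l, i = blk j l) ∨ i = 9 ∨ i = 10 ∨ i = 11 := by
  revert i
  unfold blk
  decide

/-- the twelve variable form -/
noncomputable def form {R : Type} [CommRing R] (a b c p : R) : MvPolynomial (Fin 12) R :=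
  NN (C a) (C b) (C c) (fun j => X (blk 0 j)) + C p * NN (C a) (C b) (C c) (fun j => X (blk 1 j)) +
    C p ^ 2 * NN (C a) (C b) (C c) (fun j => X (blk 2 j)) + X 9 * X 10 ^ 2 + X 9 ^ 2 * X 11 +
    C p * (X 10 * X 11 ^ 2)

lemma form_map {R L : Type} [CommRing R] [CommRing L] (a b c p : R)
    (ψ : MvPolynomial (Fin 12) R →+* L) (v : Fin 12 → L) (hv : ∀ i, ψ (X i) = v i) :
    ψ (form a b c p) = NN (ψ (C a)) (ψ (C b)) (ψ (C c)) (fun j => v (blk 0 j)) +
      ψ (C p) * NN (ψ (C a)) (ψ (C b)) (ψ (C c)) (fun j => v (blk 1 j)) +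
      ψ (C p) ^ 2 * NN (ψ (C a)) (ψ (C b)) (ψ (C c)) (fun j => v (blk 2 j)) +
      G (ψ (C p)) (v 9) (v 10) (v 11) := by
  unfold form G
  simp only [map_add, map_mul, map_pow, NN_map, hv]
  ring

lemma D_homog {R : Type} [CommRing R] {p0 p1 p2 q0 q1 q2 r0 r1 r2 : MvPolynomial (Fin 12) R}
    (h1 : p0.IsHomogeneous 1) (h2 : p1.IsHomogeneous 1) (h3 : p2.IsHomogeneous 1)
    (h4 : q0.IsHomogeneous 1) (h5 : q1.IsHomogeneous 1) (h6 : q2.IsHomogeneous 1)
    (h7 : r0.IsHomogeneous 1) (h8 : r1.IsHomogeneous 1) (h9 : r2.IsHomogeneous 1) :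
    (D p0 p1 p2 q0 q1 q2 r0 r1 r2).IsHomogeneous 3 := by
  unfold D
  exact ((h1.mul ((h5.mul h9).sub (h6.mul h8))).sub (h2.mul ((h4.mul h9).sub (h6.mul h7)))).add
    (h3.mul ((h4.mul h8).sub (h5.mul h7)))

lemma form_homog {R : Type} [CommRing R] (a b c p : R) : (form a b c p).IsHomogeneous 3 := by
  have hX : ∀ i : Fin 12, (X i : MvPolynomial (Fin 12) R).IsHomogeneous 1 := fun i =>
    isHomogeneous_X R i
  have hC : ∀ (c : R) (n : ℕ) (q : MvPolynomial (Fin 12) R), q.IsHomogeneous n →
      (C c * q).IsHomogeneous n := fun c n q hq => by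
    have h := (isHomogeneous_C (Fin 12) c).mul hq
    rwa [Nat.zero_add] at h
  have hN : ∀ i : Fin 3, (NN (C a) (C b) (C c) (fun j => X (blk i j)) :
      MvPolynomial (Fin 12) R).IsHomogeneous 3 := by
    intro i
    unfold NN
    simp only [← map_mul, ← map_add, ← map_pow]
    exact D_homog (hX _) (hC _ _ _ (hX _)) ((hC _ _ _ (hX _)).add (hC _ _ _ (hX _))) (hX _)
      ((hX _).add (hC _ _ _ (hX _))) ((hC _ _ _ (hX _)).add (hC _ _ _ (hX _))) (hX _)
      ((hX _).add (hC _ _ _ (hX _))) (((hX _).add (hC _ _ _ (hX _))).add (hC _ _ _ (hX _)))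
  unfold form
  rw [← map_pow]
  exact (((((hN 0).add (hC _ _ _ (hN 1))).add (hC _ _ _ (hN 2))).add
    ((hX 9).mul ((hX 10).pow 2))).add (((hX 9).pow 2).mul (hX 11))).add
    (hC _ _ _ ((hX 10).mul ((hX 11).pow 2)))

/-- no line, in terms of subspaces -/
lemma no_line_sub {L : Type} [Field L] {d : DV L} (u : Cub d) {p : L} (hp : p ≠ 0)
    (he : ¬ (3 : ℤ) ∣ d.v p) (h2 : (2 : L) ≠ 0) (f : (Fin 12 → L) → L)
    (hf : ∀ v, f v = M u p (fun i j => v (blk i j)) + G p (v 9) (v 10) (v 11))
    (W : Submodule L (Fin 12 → L)) (hW : Module.finrank L W = 2) : ∃ v ∈ W, f v ≠ 0 := by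
  by_contra hcon
  push Not at hcon
  have hfd : FiniteDimensional L W := Module.finite_of_finrank_pos (by omega)
  let b := Module.finBasisOfFinrankEq L W hW
  refine no_line_pair u hp he h2 (fun i j => (b 0 : Fin 12 → L) (blk i j))
    (fun i j => (b 1 : Fin 12 → L) (blk i j)) ((b 0 : Fin 12 → L) 9) ((b 0 : Fin 12 → L) 10)
    ((b 0 : Fin 12 → L) 11) ((b 1 : Fin 12 → L) 9) ((b 1 : Fin 12 → L) 10)
    ((b 1 : Fin 12 → L) 11) ?_ ?_
  · intro s t
    have h1 := hcon _ (s • b 0 + t • b 1).2
    rw [hf] at h1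
    exact h1
  · intro s t h1 h2 h3 h4
    have h5 : s • b 0 + t • b 1 = 0 := by
      apply Subtype.ext
      funext i
      rcases coord_cases i with ⟨j, l, rfl⟩ | rfl | rfl | rfl
      · exact h1 j l
      · exact h2
      · exact h3
      · exact h4
    have h6 : LinearIndependent L ![b 0, b 1] := by
      have : ![b 0, b 1] = b := by
        funext i
        fin_cases i <;> rfl
      rw [this]
      exact b.linearIndependent
    exact LinearIndependent.pair_iff.1 h6 s t h5

/-- a value which is not zero -/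
lemma exists_ne {L : Type} [Field L] {d : DV L} (u : Cub d) (p : L) (f : (Fin 12 → L) → L)
    (hf : ∀ v, f v = M u p (fun i j => v (blk i j)) + G p (v 9) (v 10) (v 11)) :
    ∃ v, f v ≠ 0 := by
  refine ⟨fun i => if i = 9 ∨ i = 10 then 1 else 0, ?_⟩
  have hb : ∀ i j : Fin 3, (if blk i j = 9 ∨ blk i j = 10 then (1 : L) else 0) = 0 := by
    intro i j
    have h : ¬ (blk i j = 9 ∨ blk i j = 10) := by
      revert i j
      unfold blk
      decide
    rw [if_neg h]
  rw [hf]
  have hM : M u p (fun i j => if blk i j = 9 ∨ blk i j = 10 then (1 : L) else 0) = 0 := by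
    simp only [hb]
    unfold M
    have h0 := u.smul (fun _ => 0) 0
    have e : (fun _ : Fin 3 => (0 : L) * 0) = fun _ => 0 := by funext; ring
    rw [e] at h0
    have h1 : u.N (fun _ => 0) = 0 := by
      rw [h0]; ring
    rw [h1]
    ring
  rw [hM]
  have h11 : ¬ ((11 : Fin 12) = 9 ∨ (11 : Fin 12) = 10) := by decide
  unfold G
  simp [h11]

/-- the form attached to a prime with finite residue field, over the fraction field of an arbitrary
Dedekind domain -/
theorem dedekind {S L : Type} [CommRing S] [IsDedekindDomain S] [Field L] [Algebra S L]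
    [IsFractionRing S L] (h2 : (2 : L) ≠ 0) (P : IsDedekindDomain.HeightOneSpectrum S)
    [Finite (S ⧸ P.asIdeal)] :
    ∃ F : MvPolynomial (Fin 12) L, F.IsHomogeneous 3 ∧ F ≠ 0 ∧
      ∀ W : Submodule L (Fin 12 → L), Module.finrank L W = 2 → ∃ v ∈ W, eval v F ≠ 0 := by
  have hmax : P.asIdeal.IsMaximal := P.isMaximal
  letI : Field (S ⧸ P.asIdeal) := Ideal.Quotient.field _
  obtain ⟨c', hc'⟩ : ∃ c' : S ⧸ P.asIdeal, ∀ θ : S ⧸ P.asIdeal, θ ^ 3 - θ ≠ c' := by
    by_contra hcon
    push Not at hcon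
    have hsurj : Function.Surjective (fun θ : S ⧸ P.asIdeal => θ ^ 3 - θ) := hcon
    have hinj := Finite.injective_iff_surjective.2 hsurj
    have := @hinj 0 1 (by simp)
    exact zero_ne_one this
  obtain ⟨c, rfl⟩ := Ideal.Quotient.mk_surjective c'
  obtain ⟨π, hπ⟩ := P.valuation_exists_uniformizer L
  have hπ0 : π ≠ 0 := by
    intro h
    rw [h, map_zero] at hπ
    exact WithZero.exp_ne_zero hπ.symm
  have hπv : (ofPrime (L := L) P).v π = 1 := by
    show - WithZero.log (P.valuation L π) = 1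
    rw [hπ, WithZero.log_exp]
    norm_num
  have hint : ∀ s : S, (ofPrime (L := L) P).g 0 (algebraMap S L s) := fun s =>
    (g_zero_iff P _).2 (P.valuation_le_one s)
  let u : Cub (ofPrime (L := L) P) := cub (ofPrime (L := L) P) (hint 0) (hint 1) (hint c)
    (aniso_ofPrime P 0 1 c (fun θ h => hc' θ (by
      rw [map_zero, map_one] at h
      linear_combination h)))
  have hf : ∀ v : Fin 12 → L, eval v (form (algebraMap S L 0) (algebraMap S L 1)
      (algebraMap S L c) π) =
      M u π (fun i j => v (blk i j)) + G π (v 9) (v 10) (v 11) := by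
    intro v
    rw [form_map _ _ _ _ (eval v) v (fun i => eval_X i)]
    simp only [eval_C]
    rfl
  refine ⟨_, form_homog (algebraMap S L 0) (algebraMap S L 1) (algebraMap S L c) π, ?_, ?_⟩
  · intro h0
    obtain ⟨v, hv⟩ := exists_ne u π _ hf
    rw [h0] at hv
    simp at hv
  · intro W hW
    exact no_line_sub u hπ0 (by rw [hπv]; norm_num) h2 _ hf W hW

/-- the form over an arbitrary finite extension -/
theorem anyField {R K : Type} [CommRing R] [IsDedekindDomain R] [Field K] [Algebra R K]
    [IsFractionRing R K] [CharZero K] (p : ℕ) [Fact p.Prime]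
    (hmax : (Ideal.span {(p : R)}).IsMaximal) (hp : (p : R) ≠ 0)
    (hcard : Nat.card (R ⧸ Ideal.span {(p : R)}) = p)
    (L : Type) [Field L] [Algebra K L] [FiniteDimensional K L] :
    ∃ F : MvPolynomial (Fin 12) L, F.IsHomogeneous 3 ∧ F ≠ 0 ∧
      ∀ W : Submodule L (Fin 12 → L), Module.finrank L W = 2 → ∃ v ∈ W, eval v F ≠ 0 := by
  letI : Algebra R L := ((algebraMap K L).comp (algebraMap R K)).toAlgebra
  haveI : IsScalarTower R K L := IsScalarTower.of_algebraMap_eq' rfl
  haveI : CharZero L := charZero_of_injective_algebraMap (algebraMap K L).injective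
  let S := integralClosure R L
  haveI : IsDedekindDomain S := integralClosure.isDedekindDomain R K L
  haveI : IsFractionRing S L := integralClosure.isFractionRing_of_finite_extension K L
  haveI : Module.Finite R S := IsIntegralClosure.finite R K L S
  obtain ⟨P, hv, hP0, f, hf1, hf3⟩ := exists_prime 0 (S := S) (L := L) (R := R) (K := K) p hmax hp
    hcard (by
      rw [zero_dvd_iff]
      exact Module.finrank_pos.ne')
  have : Finite (S ⧸ P.asIdeal) := Nat.finite_of_card_ne_zero (by
    rw [hf1]; exact pow_ne_zero _ (Fact.out : p.Prime).ne_zero)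
  exact dedekind two_ne_zero P

/-- one form for all extensions of degree prime to three -/
theorem uniform {R K : Type} [CommRing R] [IsDedekindDomain R] [Field K] [Algebra R K]
    [IsFractionRing R K] [CharZero K] (p : ℕ) [Fact p.Prime]
    (hmax : (Ideal.span {(p : R)}).IsMaximal) (hp : (p : R) ≠ 0)
    (hcard : Nat.card (R ⧸ Ideal.span {(p : R)}) = p) {a b c : ℤ}
    (hirr : Irreducible (Polynomial.X ^ 3 - Polynomial.C (a : ZMod p) * Polynomial.X ^ 2 -
      Polynomial.C (b : ZMod p) * Polynomial.X - Polynomial.C (c : ZMod p)))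
    (L : Type) [Field L] [Algebra K L] [FiniteDimensional K L]
    (hK : ¬ 3 ∣ Module.finrank K L) :
    map (Int.castRingHom L) (form a b c (p : ℤ)) ≠ 0 ∧
      ∀ W : Submodule L (Fin 12 → L), Module.finrank L W = 2 →
        ∃ v ∈ W, eval v (map (Int.castRingHom L) (form a b c (p : ℤ))) ≠ 0 := by
  letI : Algebra R L := ((algebraMap K L).comp (algebraMap R K)).toAlgebra
  haveI : IsScalarTower R K L := IsScalarTower.of_algebraMap_eq' rfl
  haveI : CharZero L := charZero_of_injective_algebraMap (algebraMap K L).injective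
  let S := integralClosure R L
  haveI : IsDedekindDomain S := integralClosure.isDedekindDomain R K L
  haveI : IsFractionRing S L := integralClosure.isFractionRing_of_finite_extension K L
  haveI : Module.Finite R S := IsIntegralClosure.finite R K L S
  obtain ⟨P, hv, hP0, f, hf1, hf3⟩ := exists_prime 3 (S := S) (L := L) (R := R) (K := K) p hmax hp
    hcard hK
  have hmaxP : P.asIdeal.IsMaximal := P.isMaximal
  letI : Field (S ⧸ P.asIdeal) := Ideal.Quotient.field _
  have : Finite (S ⧸ P.asIdeal) := Nat.finite_of_card_ne_zero (by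
    rw [hf1]; exact pow_ne_zero _ (Fact.out : p.Prime).ne_zero)
  have : CharP (S ⧸ P.asIdeal) p := by
    refine (CharP.charP_iff_prime_eq_zero (Fact.out : p.Prime)).2 hP0
  have hroot := no_root (k := S ⧸ P.asIdeal) hf1 hf3 hirr
  have hint : ∀ s : S, (ofPrime (L := L) P).g 0 (algebraMap S L s) := fun s =>
    (g_zero_iff P _).2 (P.valuation_le_one s)
  let u : Cub (ofPrime (L := L) P) := cub (ofPrime (L := L) P) (hint (a : S)) (hint (b : S))
    (hint (c : S)) (aniso_ofPrime P (a : S) (b : S) (c : S) (fun θ h => hroot θ (by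
      simpa only [map_intCast] using h)))
  have hf : ∀ v : Fin 12 → L, eval v (map (Int.castRingHom L) (form a b c (p : ℤ))) =
      M u (p : L) (fun i j => v (blk i j)) + G (p : L) (v 9) (v 10) (v 11) := by
    intro v
    have h1 := form_map a b c (p : ℤ) ((eval v).comp (map (Int.castRingHom L))) v (fun i => by simp)
    simp only [RingHom.comp_apply, map_C, eval_C, Int.coe_castRingHom, Int.cast_natCast] at h1
    rw [h1]
    have hu : ∀ x, u.N x = NN (algebraMap S L (a : S)) (algebraMap S L (b : S))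
      (algebraMap S L (c : S)) x := fun _ => rfl
    unfold M
    rw [hu, hu, hu]
    simp only [map_intCast]
  have hpL : (p : L) ≠ 0 := Nat.cast_ne_zero.2 (Fact.out : p.Prime).ne_zero
  refine ⟨?_, ?_⟩
  · intro h0
    obtain ⟨v, hv⟩ := exists_ne u (p : L) _ hf
    rw [h0] at hv
    simp at hv
  · intro W hW
    exact no_line_sub u hpL hv two_ne_zero _ hf W hW

end Pool.Agent.Y505.RM
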