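import Pool.Agent.Y505.RL.Core

/-!
# The twelve variable form, for an arbitrary integral ternary cubic form which is anisotropic modulo
the maximal ideal
-/

set_option autoImplicit false

namespace Pool.Agent.Y505.RM

open Pool.Agent.Y505.RL (DV two_sum)

/-- a cubic form in three variables, with integral coefficients, anisotropic modulo the maximal
ideal (`N1` is the polarisation) -/
structure Cub {K : Type} [Field K] (d : DV K) where
  N : (Fin 3 → K) → K
  N1 : (Fin 3 → K) → (Fin 3 → K) → K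
  line : ∀ (x y : Fin 3 → K) (s t : K), N (fun j => s * x j + t * y j) =
    s ^ 3 * N x + s ^ 2 * t * N1 x y + s * t ^ 2 * N1 y x + t ^ 3 * N y
  zero_left : ∀ x y : Fin 3 → K, (∀ j, x j = 0) → N1 x y = 0
  zero_right : ∀ x y : Fin 3 → K, (∀ j, y j = 0) → N1 x y = 0
  est : ∀ (a : ℤ) (x : Fin 3 → K), (∀ j, d.g a (x j)) → d.g (3 * a) (N x)
  est1 : ∀ (a b : ℤ) (x y : Fin 3 → K), (∀ j, d.g a (x j)) → (∀ j, d.g b (y j)) →
    d.g (2 * a + b) (N1 x y)
  aniso : ∀ x : Fin 3 → K, (∀ j, d.g 0 (x j)) → d.g 1 (N x) → ∀ j, d.g 1 (x j)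

variable {K : Type} [Field K] {d : DV K} (u : Cub d)

lemma Cub.smul (x : Fin 3 → K) (s : K) : u.N (fun j => s * x j) = s ^ 3 * u.N x := by
  have h := u.line x x s 0
  have e : (fun j => s * x j + 0 * x j) = fun j => s * x j := by
    funext j; ring
  rw [e] at h
  rw [h]
  ring

/-- the value of `N` at a nonzero vector -/
lemma N_aniso (x : Fin 3 → K) (hx : ∃ j, x j ≠ 0) :
    u.N x ≠ 0 ∧ 3 ∣ d.v (u.N x) ∧ ∀ j, d.g (d.v (u.N x)) (x j) := by
  classical
  obtain ⟨j0, hj0, hmin⟩ := Finset.exists_min_image (Finset.univ.filter fun j => x j ≠ 0)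
    (fun j => d.v (x j)) (by
      obtain ⟨j, hj⟩ := hx
      exact ⟨j, by simp [hj]⟩)
  have hj0' : x j0 ≠ 0 := (Finset.mem_filter.1 hj0).2
  have hmin' : ∀ j, x j ≠ 0 → d.v (x j0) ≤ d.v (x j) := fun j hj =>
    hmin j (Finset.mem_filter.2 ⟨Finset.mem_univ _, hj⟩)
  set n := d.v (x j0) with hn
  set c : K := (x j0)⁻¹ with hc
  have hc0 : c ≠ 0 := inv_ne_zero hj0'
  have hcv : d.v c = - n := d.v_inv _ hj0'
  have h1 : ∀ j, d.g 0 (c * x j) := by
    intro j hj
    have h2 : x j ≠ 0 := right_ne_zero_of_mul hj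
    rw [d.mul _ _ hc0 h2, hcv]
    have := hmin' j h2
    omega
  have h2 : ¬ d.g 1 (u.N fun j => c * x j) := by
    intro hcon
    have h3 := u.aniso _ h1 hcon j0
    have h4 : c * x j0 = 1 := inv_mul_cancel₀ hj0'
    simp only [h4] at h3
    have h5 := h3 one_ne_zero
    rw [d.v_one] at h5
    omega
  rw [u.smul] at h2
  have h3 : c ^ 3 * u.N x ≠ 0 ∧ 3 * d.v (c ^ 3 * u.N x) < 1 := by
    unfold DV.g at h2
    push Not at h2
    exact h2
  have h4 : u.N x ≠ 0 := right_ne_zero_of_mul h3.1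
  have h5 := h3.2
  rw [d.mul _ _ (pow_ne_zero _ hc0) h4, d.v_pow _ hc0, hcv] at h5
  have h6 := u.est (3 * n) x (fun j hj => by
    have := hmin' j hj
    omega) h4
  push_cast at h5
  have h7 : d.v (u.N x) = 3 * n := by omega
  refine ⟨h4, ⟨n, h7⟩, ?_⟩
  intro j hj
  rw [h7]
  have := hmin' j hj
  omega

/-- the nine variable part -/
def M (c : K) (P : Fin 3 → Fin 3 → K) : K :=
  u.N (P 0) + c * u.N (P 1) + c ^ 2 * u.N (P 2)

/-- its polarisation -/
def M1 (c : K) (P Q : Fin 3 → Fin 3 → K) : K :=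
  u.N1 (P 0) (Q 0) + c * u.N1 (P 1) (Q 1) + c ^ 2 * u.N1 (P 2) (Q 2)

lemma M_line (c : K) (P Q : Fin 3 → Fin 3 → K) (s t : K) :
    M u c (fun i j => s * P i j + t * Q i j) = s ^ 3 * M u c P + s ^ 2 * t * M1 u c P Q +
      s * t ^ 2 * M1 u c Q P + t ^ 3 * M u c Q := by
  unfold M M1
  rw [u.line (P 0) (Q 0), u.line (P 1) (Q 1), u.line (P 2) (Q 2)]
  ring

/-- `P` has norm at least `a / 3` -/
def Bd (d : DV K) (c : K) (a : ℤ) (P : Fin 3 → Fin 3 → K) : Prop :=
  (∀ j, d.g a (P 0 j)) ∧ (∀ j, d.g (a - d.v c) (P 1 j)) ∧ (∀ j, d.g (a - 2 * d.v c) (P 2 j))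

lemma Bd_zero (c : K) (a : ℤ) {P : Fin 3 → Fin 3 → K} (hP : ∀ i j, P i j = 0) : Bd d c a P :=
  ⟨fun j => by rw [hP]; exact d.g_zero _, fun j => by rw [hP]; exact d.g_zero _,
    fun j => by rw [hP]; exact d.g_zero _⟩

lemma M_est {c : K} (hc : c ≠ 0) {a : ℤ} {P : Fin 3 → Fin 3 → K} (h : Bd d c a P) :
    d.g (3 * a) (M u c P) := by
  have hcg : d.g (3 * d.v c) c := fun _ => le_rfl
  have hcg2 : d.g (3 * (2 * d.v c)) (c ^ 2) := fun _ => by
    rw [d.v_pow c hc]; push_cast; omega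
  have h0 := u.est _ _ h.1
  have h1 := d.g_mul hcg (u.est _ _ h.2.1)
  have h2 := d.g_mul hcg2 (u.est _ _ h.2.2)
  exact d.g_add (d.g_add h0 (d.g_mono (by omega) h1)) (d.g_mono (by omega) h2)

lemma M1_est {c : K} (hc : c ≠ 0) {a b : ℤ} {P Q : Fin 3 → Fin 3 → K} (hP : Bd d c a P)
    (hQ : Bd d c b Q) : d.g (2 * a + b) (M1 u c P Q) := by
  have hcg : d.g (3 * d.v c) c := fun _ => le_rfl
  have hcg2 : d.g (3 * (2 * d.v c)) (c ^ 2) := fun _ => by
    rw [d.v_pow c hc]; push_cast; omega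
  have h0 := u.est1 _ _ _ _ hP.1 hQ.1
  have h1 := d.g_mul hcg (u.est1 _ _ _ _ hP.2.1 hQ.2.1)
  have h2 := d.g_mul hcg2 (u.est1 _ _ _ _ hP.2.2 hQ.2.2)
  exact d.g_add (d.g_add h0 (d.g_mono (by omega) h1)) (d.g_mono (by omega) h2)

/-- anisotropy of the nine variable form, with the value -/
lemma M_aniso {c : K} (hc : c ≠ 0) (he : ¬ (3 : ℤ) ∣ d.v c)
    (P : Fin 3 → Fin 3 → K) :
    (M u c P = 0 → ∀ i j, P i j = 0) ∧ (M u c P ≠ 0 → Bd d c (d.v (M u c P)) P) := by
  have key : ∀ x : Fin 3 → K, (u.N x = 0 → ∀ j, x j = 0) ∧ (u.N x ≠ 0 → 3 ∣ d.v (u.N x) ∧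
      ∀ j, d.g (d.v (u.N x)) (x j)) := by
    intro x
    constructor
    · intro h0
      by_contra hcon
      push Not at hcon
      exact (N_aniso u x hcon).1 h0
    · intro h0
      have hx : ∃ j, x j ≠ 0 := by
        by_contra hcon
        push Not at hcon
        apply h0
        have e : x = fun j => (0 : K) * x j := by
          funext j
          rw [hcon j, mul_zero]
        rw [e, u.smul]
        ring
      exact (N_aniso u x hx).2
  obtain ⟨k0, l0⟩ := key (P 0)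
  obtain ⟨k1, l1⟩ := key (P 1)
  obtain ⟨k2, l2⟩ := key (P 2)
  have hc2 : c ^ 2 ≠ 0 := pow_ne_zero _ hc
  have v1 : u.N (P 1) ≠ 0 → d.v (c * u.N (P 1)) = d.v c + d.v (u.N (P 1)) := fun h => d.mul _ _ hc h
  have v2 : u.N (P 2) ≠ 0 → d.v (c ^ 2 * u.N (P 2)) = 2 * d.v c + d.v (u.N (P 2)) := fun h => by
    rw [d.mul _ _ hc2 h, d.v_pow c hc]; push_cast; ring
  have s1 := two_sum d (x := u.N (P 0)) (y := c * u.N (P 1)) (by
    intro a b
    have b' := right_ne_zero_of_mul b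
    rw [v1 b']
    have := (l0 a).1
    have := (l1 b').1
    omega)
  have s2 := two_sum d (x := u.N (P 0) + c * u.N (P 1)) (y := c ^ 2 * u.N (P 2)) (by
    intro a b
    have b' := right_ne_zero_of_mul b
    rw [v2 b']
    have h2 := (l2 b').1
    rcases (s1.2 a).2.2 with ⟨a1, a2⟩ | ⟨a1, a2⟩
    · have := (l0 a1).1
      omega
    · have a1' := right_ne_zero_of_mul a1
      have := (l1 a1').1
      rw [v1 a1'] at a2
      omega)
  constructor
  · intro h0
    obtain ⟨a, b⟩ := s2.1 h0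
    obtain ⟨a1, a2⟩ := s1.1 a
    have b' := (mul_eq_zero.1 b).resolve_left hc2
    have a2' := (mul_eq_zero.1 a2).resolve_left hc
    intro i
    fin_cases i
    · exact k0 a1
    · exact k1 a2'
    · exact k2 b'
  · intro h0
    obtain ⟨t1, t2, -⟩ := s2.2 h0
    have hM : d.v (M u c P) = d.v (u.N (P 0) + c * u.N (P 1) + c ^ 2 * u.N (P 2)) := rfl
    refine ⟨fun j => ?_, fun j => ?_, fun j => ?_⟩
    · by_cases hz : u.N (P 0) = 0
      · rw [k0 hz]; exact d.g_zero _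
      · refine d.g_mono ?_ ((l0 hz).2 j)
        by_cases hs : u.N (P 0) + c * u.N (P 1) = 0
        · exact absurd (s1.1 hs).1 hz
        · have e1 := t1 hs
          have e2 := (s1.2 hs).1 hz
          omega
    · by_cases hz : u.N (P 1) = 0
      · rw [k1 hz]; exact d.g_zero _
      · refine d.g_mono ?_ ((l1 hz).2 j)
        have hz' : c * u.N (P 1) ≠ 0 := mul_ne_zero hc hz
        by_cases hs : u.N (P 0) + c * u.N (P 1) = 0
        · exact absurd (s1.1 hs).2 hz'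
        · have e1 := t1 hs
          have e2 := (s1.2 hs).2.1 hz'
          rw [v1 hz] at e2
          omega
    · by_cases hz : u.N (P 2) = 0
      · rw [k2 hz]; exact d.g_zero _
      · refine d.g_mono ?_ ((l2 hz).2 j)
        have e1 := t2 (mul_ne_zero hc2 hz)
        rw [v2 hz] at e1
        omega

end Pool.Agent.Y505.RM
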