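import Pool.Agent.Y505.RM.Core

/-!
# No lines: the argument with the three kernel vectors
-/

set_option autoImplicit false

namespace Pool.Agent.Y505.RM

open Pool.Agent.Y505.RL (DV two_sum)

variable {K : Type} [Field K] {d : DV K} (u : Cub d)

lemma Bd_comb {c : K} {a : ℤ} {P Q : Fin 3 → Fin 3 → K} (s t : K)
    (hP : Bd d c (a - 3 * d.v s) P) (hQ : Bd d c (a - 3 * d.v t) Q) :
    Bd d c a (fun i j => s * P i j + t * Q i j) := by
  have gs : d.g (3 * d.v s) s := fun _ => le_rfl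
  have gt : d.g (3 * d.v t) t := fun _ => le_rfl
  refine ⟨fun j => ?_, fun j => ?_, fun j => ?_⟩
  · exact d.g_add (d.g_mono (by omega) (d.g_mul gs (hP.1 j)))
      (d.g_mono (by omega) (d.g_mul gt (hQ.1 j)))
  · exact d.g_add (d.g_mono (by omega) (d.g_mul gs (hP.2.1 j)))
      (d.g_mono (by omega) (d.g_mul gt (hQ.2.1 j)))
  · exact d.g_add (d.g_mono (by omega) (d.g_mul gs (hP.2.2 j)))
      (d.g_mono (by omega) (d.g_mul gt (hQ.2.2 j)))

lemma Bd_mono {c : K} {a b : ℤ} (h : b ≤ a) {P : Fin 3 → Fin 3 → K} (hP : Bd d c a P) :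
    Bd d c b P :=
  ⟨fun j => d.g_mono h (hP.1 j), fun j => d.g_mono (by omega) (hP.2.1 j),
    fun j => d.g_mono (by omega) (hP.2.2 j)⟩

/-- the ultrametric inequality for the cube root of `M` -/
lemma M_ultra {c : K} (hc : c ≠ 0) (he : ¬ (3 : ℤ) ∣ d.v c)
    {P Q R : Fin 3 → Fin 3 → K} {s t e : K} (_hs : s ≠ 0) (_ht : t ≠ 0) (hu : e ≠ 0)
    (hP : M u c P ≠ 0) (hQ : M u c Q ≠ 0) (hR : M u c R ≠ 0)
    (hrel : ∀ i j, s * P i j + t * Q i j + e * R i j = 0) {a : ℤ}
    (h1 : a ≤ 3 * d.v s + d.v (M u c P)) (h2 : a ≤ 3 * d.v t + d.v (M u c Q)) :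
    a ≤ 3 * d.v e + d.v (M u c R) := by
  have b1 := (M_aniso u hc he P).2 hP
  have b2 := (M_aniso u hc he Q).2 hQ
  have b3 := Bd_comb (c := c) (a := a) s t (Bd_mono (by omega) b1)
    (Bd_mono (by omega) b2)
  have e1 : (fun i j => s * P i j + t * Q i j) = fun i j => (-e) * R i j + 0 * R i j := by
    funext i j
    linear_combination hrel i j
  rw [e1] at b3
  have b4 := M_est u hc b3
  rw [M_line] at b4
  have e2 : (-e) ^ 3 * M u c R + (-e) ^ 2 * 0 * M1 u c R R + (-e) * 0 ^ 2 * M1 u c R R + 0 ^ 3 * M u c R =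
      (-e) ^ 3 * M u c R := by ring
  rw [e2] at b4
  have hu3 : (-e) ^ 3 ≠ 0 := pow_ne_zero _ (neg_ne_zero.2 hu)
  have b5 := b4 (mul_ne_zero hu3 hR)
  rw [d.mul _ _ hu3 hR, d.v_pow _ (neg_ne_zero.2 hu), d.v_neg e hu] at b5
  push_cast at b5
  omega

lemma M1_zero_left {c : K} {P Q : Fin 3 → Fin 3 → K} (hP : ∀ i j, P i j = 0) :
    M1 u c P Q = 0 := by
  unfold M1
  rw [u.zero_left _ _ (hP 0), u.zero_left _ _ (hP 1), u.zero_left _ _ (hP 2)]
  ring

lemma M1_zero_right {c : K} {P Q : Fin 3 → Fin 3 → K} (hQ : ∀ i j, Q i j = 0) :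
    M1 u c P Q = 0 := by
  unfold M1
  rw [u.zero_right _ _ (hQ 0), u.zero_right _ _ (hQ 1), u.zero_right _ _ (hQ 2)]
  ring

/-- the three variable part -/
def G {R : Type} [CommRing R] (c y z w : R) : R := y * z ^ 2 + y ^ 2 * w + c * (z * w ^ 2)

/-- No line, in terms of two vectors. -/
theorem no_line_pair {c : K} (hc : c ≠ 0) (he : ¬ (3 : ℤ) ∣ d.v c)
    (h2 : (2 : K) ≠ 0)
    (P Q : Fin 3 → Fin 3 → K) (y z w y' z' w' : K)
    (H : ∀ s t : K, M u c (fun i j => s * P i j + t * Q i j) + G c (s * y + t * y')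
      (s * z + t * z') (s * w + t * w') = 0)
    (hind : ∀ s t : K, (∀ i j, s * P i j + t * Q i j = 0) → s * y + t * y' = 0 →
      s * z + t * z' = 0 → s * w + t * w' = 0 → s = 0 ∧ t = 0) : False := by
  -- only the three coordinates matter
  have hind' : ∀ s t : K, s * y + t * y' = 0 → s * z + t * z' = 0 → s * w + t * w' = 0 →
      s = 0 ∧ t = 0 := by
    intro s t h1 h2 h3
    apply hind s t _ h1 h2 h3
    have h4 := H s t
    rw [h1, h2, h3] at h4
    have h5 : M u c (fun i j => s * P i j + t * Q i j) = 0 := by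
      have : G c (0 : K) 0 0 = 0 := by unfold G; ring
      rw [this, add_zero] at h4
      exact h4
    exact (M_aniso u hc he _).1 h5
  set m := z * w' - w * z' with hm
  set q := w * y' - y * w' with hq
  set r := y * z' - z * y' with hr
  have hne : ¬ (m = 0 ∧ q = 0 ∧ r = 0) := by
    rintro ⟨h1, h2, h3⟩
    have hy := hind' y' (-y) (by ring) (by linear_combination (-1) * h3) (by linear_combination h2)
    have hz := hind' z' (-z) (by linear_combination h3) (by ring) (by linear_combination (-1) * h1)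
    have hw := hind' w' (-w) (by linear_combination (-1) * h2) (by linear_combination h1) (by ring)
    have := hind' 1 0 (by rw [neg_eq_zero.1 hy.2]; ring) (by rw [neg_eq_zero.1 hz.2]; ring)
      (by rw [neg_eq_zero.1 hw.2]; ring)
    exact one_ne_zero this.1
  -- the kernel vectors
  set A : Fin 3 → Fin 3 → K := fun i j => y' * P i j + (-y) * Q i j with hA
  set B : Fin 3 → Fin 3 → K := fun i j => z' * P i j + (-z) * Q i j with hB
  set C : Fin 3 → Fin 3 → K := fun i j => w' * P i j + (-w) * Q i j with hC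
  have HAB : ∀ S T : K, M u c (fun i j => S * A i j + T * B i j) +
      G c (T * r) (-(S * r)) (S * q - T * m) = 0 := by
    intro S T
    have h1 := H (S * y' + T * z') (S * (-y) + T * (-z))
    have e1 : (fun i j => S * A i j + T * B i j) =
        fun i j => (S * y' + T * z') * P i j + (S * (-y) + T * (-z)) * Q i j := by
      funext i j
      rw [hA, hB]
      ring
    rw [e1, ← h1]
    congr 2
    · rw [hr]; ring
    · rw [hr]; ring
    · rw [hq, hm]; ring
  have HBC : ∀ S T : K, M u c (fun i j => S * B i j + T * C i j) +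
      G c (S * r - T * q) (T * m) (-(S * m)) = 0 := by
    intro S T
    have h1 := H (S * z' + T * w') (S * (-z) + T * (-w))
    have e1 : (fun i j => S * B i j + T * C i j) =
        fun i j => (S * z' + T * w') * P i j + (S * (-z) + T * (-w)) * Q i j := by
      funext i j
      rw [hB, hC]
      ring
    rw [e1, ← h1]
    congr 2
    · rw [hr, hq]; ring
    · rw [hm]; ring
    · rw [hm]; ring
  have HAC : ∀ S T : K, M u c (fun i j => S * A i j + T * C i j) +
      G c (-(T * q)) (T * m - S * r) (S * q) = 0 := by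
    intro S T
    have h1 := H (S * y' + T * w') (S * (-y) + T * (-w))
    have e1 : (fun i j => S * A i j + T * C i j) =
        fun i j => (S * y' + T * w') * P i j + (S * (-y) + T * (-w)) * Q i j := by
      funext i j
      rw [hA, hC]
      ring
    rw [e1, ← h1]
    congr 2
    · rw [hq]; ring
    · rw [hm, hr]; ring
    · rw [hq]; ring
  have MA : M u c A = c * (r * q ^ 2) := by
    have h1 := HAB 1 0
    rw [M_line] at h1
    unfold G at h1
    linear_combination h1
  have MB : M u c B = r ^ 2 * m := by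
    have h1 := HAB 0 1
    rw [M_line] at h1
    unfold G at h1
    linear_combination h1
  have MC : M u c C = q * m ^ 2 := by
    have h1 := HBC 0 1
    rw [M_line] at h1
    unfold G at h1
    linear_combination h1
  have halfc : ∀ x x' : K, 2 * x = 2 * x' → x = x' := fun x x' h => mul_left_cancel₀ h2 h
  have AB1 : M1 u c A B = -(r ^ 3 + 2 * (c * (r * q * m))) := by
    have h1 := HAB 1 1
    have h3 := HAB 1 (-1)
    rw [M_line] at h1 h3
    unfold G at h1 h3
    apply halfc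
    linear_combination h1 - h3 - 2 * MB
  have AB2 : M1 u c B A = -(r ^ 2 * q) + c * (r * m ^ 2) := by
    have h1 := HAB 1 1
    have h3 := HAB 1 (-1)
    rw [M_line] at h1 h3
    unfold G at h1 h3
    apply halfc
    linear_combination h1 + h3 - 2 * MA
  have BC1 : M1 u c B C = -(2 * (r * q * m) + c * m ^ 3) := by
    have h1 := HBC 1 1
    have h3 := HBC 1 (-1)
    rw [M_line] at h1 h3
    unfold G at h1 h3
    apply halfc
    linear_combination h1 - h3 - 2 * MC
  have BC2 : M1 u c C B = -(r * m ^ 2) + q ^ 2 * m := by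
    have h1 := HBC 1 1
    have h3 := HBC 1 (-1)
    rw [M_line] at h1 h3
    unfold G at h1 h3
    apply halfc
    linear_combination h1 + h3 - 2 * MB
  have AC2 : M1 u c C A = -(q ^ 3 + 2 * (q * m * r)) := by
    have h1 := HAC 1 1
    have h3 := HAC 1 (-1)
    rw [M_line] at h1 h3
    unfold G at h1 h3
    apply halfc
    linear_combination h1 + h3 - 2 * MA
  by_cases hr0 : r = 0
  · by_cases hq0 : q = 0
    · have hB0 := (M_aniso u hc he B).1 (by rw [MB, hr0]; ring)
      rw [M1_zero_left u hB0, hr0, hq0] at BC1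
      have h3 : c * m ^ 3 = 0 := by linear_combination BC1
      have h4 := pow_eq_zero_iff (by norm_num) |>.1 ((mul_eq_zero.1 h3).resolve_left hc)
      exact hne ⟨h4, hq0, hr0⟩
    · have hA0 := (M_aniso u hc he A).1 (by rw [MA, hr0]; ring)
      rw [M1_zero_right u hA0, hr0] at AC2
      have h3 : q ^ 3 = 0 := by linear_combination AC2
      exact hq0 (pow_eq_zero_iff (by norm_num) |>.1 h3)
  by_cases hq0 : q = 0
  · have hA0 := (M_aniso u hc he A).1 (by rw [MA, hq0]; ring)
    rw [M1_zero_left u hA0, hq0] at AB1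
    have h3 : r ^ 3 = 0 := by linear_combination AB1
    exact hr0 (pow_eq_zero_iff (by norm_num) |>.1 h3)
  by_cases hm0 : m = 0
  · have hB0 := (M_aniso u hc he B).1 (by rw [MB, hm0]; ring)
    rw [M1_zero_left u hB0, hm0] at AB2
    have h3 : r ^ 2 * q = 0 := by linear_combination AB2
    rcases mul_eq_zero.1 h3 with h4 | h4
    · exact hr0 (pow_eq_zero_iff (by norm_num) |>.1 h4)
    · exact hq0 h4
  have hr2 : r ^ 2 ≠ 0 := pow_ne_zero _ hr0
  have hq2 : q ^ 2 ≠ 0 := pow_ne_zero _ hq0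
  have hm2 : m ^ 2 ≠ 0 := pow_ne_zero _ hm0
  have MA0 : M u c A ≠ 0 := by rw [MA]; exact mul_ne_zero hc (mul_ne_zero hr0 hq2)
  have MB0 : M u c B ≠ 0 := by rw [MB]; exact mul_ne_zero hr2 hm0
  have MC0 : M u c C ≠ 0 := by rw [MC]; exact mul_ne_zero hq0 hm2
  have vA : d.v (M u c A) = d.v c + d.v r + 2 * d.v q := by
    rw [MA, d.mul _ _ hc (mul_ne_zero hr0 hq2), d.mul _ _ hr0 hq2, d.v_pow _ hq0]
    push_cast
    ring
  have vB : d.v (M u c B) = 2 * d.v r + d.v m := by
    rw [MB, d.mul _ _ hr2 hm0, d.v_pow _ hr0]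
    push_cast
    ring
  have vC : d.v (M u c C) = d.v q + 2 * d.v m := by
    rw [MC, d.mul _ _ hq0 hm2, d.v_pow _ hm0]
    push_cast
    ring
  have rel : ∀ i j, m * A i j + q * B i j + r * C i j = 0 := by
    intro i j
    rw [hA, hB, hC, hm, hq, hr]
    ring
  have U1 := fun a => M_ultra u hc he hm0 hq0 hr0 MA0 MB0 MC0 rel (a := a)
  have U2 := fun a => M_ultra u hc he hm0 hr0 hq0 MA0 MC0 MB0
    (fun i j => by linear_combination rel i j) (a := a)
  have U3 := fun a => M_ultra u hc he hq0 hr0 hm0 MB0 MC0 MA0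
    (fun i j => by linear_combination rel i j) (a := a)
  rw [vA, vB, vC] at U1 U2 U3
  have bA := (M_aniso u hc he A).2 MA0
  have bB := (M_aniso u hc he B).2 MB0
  have bC := (M_aniso u hc he C).2 MC0
  have u1 := U1 (min (3 * d.v m + (d.v c + d.v r + 2 * d.v q)) (3 * d.v q + (2 * d.v r + d.v m)))
    (min_le_left _ _) (min_le_right _ _)
  have u2 := U2 (min (3 * d.v m + (d.v c + d.v r + 2 * d.v q)) (3 * d.v r + (d.v q + 2 * d.v m)))
    (min_le_left _ _) (min_le_right _ _)
  have u3 := U3 (min (3 * d.v q + (2 * d.v r + d.v m)) (3 * d.v r + (d.v q + 2 * d.v m)))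
    (min_le_left _ _) (min_le_right _ _)
  have v2 : 0 ≤ d.v 2 := by
    have := d.g_nat 2
    push_cast at this
    have := this h2
    omega
  have cases3 : (d.v r + d.v m = 2 * d.v q ∧ 2 * d.v r < d.v m + d.v c + d.v q) ∨
      (2 * d.v m + d.v c = d.v r + d.v q ∧ 2 * d.v q < d.v r + d.v m) ∨
      (2 * d.v r = d.v m + d.v c + d.v q ∧ 2 * d.v m + d.v c < d.v r + d.v q) := by
    omega
  rcases cases3 with ⟨h3, h4⟩ | ⟨h3, h4⟩ | ⟨h3, h4⟩
  · have est := M1_est u hc bA bB
    have x0 : r ^ 3 ≠ 0 := pow_ne_zero _ hr0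
    have y0 : 2 * (c * (r * q * m)) ≠ 0 :=
      mul_ne_zero h2 (mul_ne_zero hc (mul_ne_zero (mul_ne_zero hr0 hq0) hm0))
    have vx : d.v (r ^ 3) = 3 * d.v r := by rw [d.v_pow _ hr0]; push_cast; ring
    have vy : d.v (2 * (c * (r * q * m))) = d.v 2 + (d.v c + (d.v r + d.v q + d.v m)) := by
      rw [d.mul _ _ h2 (right_ne_zero_of_mul y0), d.mul _ _ hc
        (mul_ne_zero (mul_ne_zero hr0 hq0) hm0), d.mul _ _ (mul_ne_zero hr0 hq0) hm0,
        d.mul _ _ hr0 hq0]
    have ts := two_sum d (x := r ^ 3) (y := 2 * (c * (r * q * m))) (fun _ _ => by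
      rw [vx, vy]; omega)
    have s0 : r ^ 3 + 2 * (c * (r * q * m)) ≠ 0 := fun h0 => x0 (ts.1 h0).1
    have s1 := (ts.2 s0).1 x0
    have e1 := est (by rw [AB1]; exact neg_ne_zero.2 s0)
    rw [AB1, d.v_neg _ s0, vA, vB] at e1
    rw [vx] at s1
    omega
  · have est := M1_est u hc bC bB
    have x0 : -(r * m ^ 2) ≠ 0 := neg_ne_zero.2 (mul_ne_zero hr0 hm2)
    have y0 : q ^ 2 * m ≠ 0 := mul_ne_zero hq2 hm0
    have vx : d.v (-(r * m ^ 2)) = d.v r + 2 * d.v m := by
      rw [d.v_neg _ (mul_ne_zero hr0 hm2), d.mul _ _ hr0 hm2, d.v_pow _ hm0]; push_cast; ring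
    have vy : d.v (q ^ 2 * m) = 2 * d.v q + d.v m := by
      rw [d.mul _ _ hq2 hm0, d.v_pow _ hq0]; push_cast; ring
    have ts := two_sum d (x := -(r * m ^ 2)) (y := q ^ 2 * m) (fun _ _ => by
      rw [vx, vy]; omega)
    have s0 : -(r * m ^ 2) + q ^ 2 * m ≠ 0 := fun h0 => x0 (ts.1 h0).1
    have s1 := (ts.2 s0).2.1 y0
    have e1 := est (by rw [BC2]; exact s0)
    rw [BC2, vB, vC] at e1
    rw [vy] at s1
    omega
  · have est := M1_est u hc bB bA
    have x0 : -(r ^ 2 * q) ≠ 0 := neg_ne_zero.2 (mul_ne_zero hr2 hq0)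
    have y0 : c * (r * m ^ 2) ≠ 0 := mul_ne_zero hc (mul_ne_zero hr0 hm2)
    have vx : d.v (-(r ^ 2 * q)) = 2 * d.v r + d.v q := by
      rw [d.v_neg _ (mul_ne_zero hr2 hq0), d.mul _ _ hr2 hq0, d.v_pow _ hr0]; push_cast; ring
    have vy : d.v (c * (r * m ^ 2)) = d.v c + (d.v r + 2 * d.v m) := by
      rw [d.mul _ _ hc (mul_ne_zero hr0 hm2), d.mul _ _ hr0 hm2, d.v_pow _ hm0]; push_cast; ring
    have ts := two_sum d (x := -(r ^ 2 * q)) (y := c * (r * m ^ 2)) (fun _ _ => by
      rw [vx, vy]; omega)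
    have s0 : -(r ^ 2 * q) + c * (r * m ^ 2) ≠ 0 := fun h0 => x0 (ts.1 h0).1
    have s1 := (ts.2 s0).2.1 y0
    have e1 := est (by rw [AB2]; exact s0)
    rw [AB2, vA, vB] at e1
    rw [vy] at s1
    omega

end Pool.Agent.Y505.RM
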