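import Pool.Agent.Y505.RM.Norm

/-!
# Finite extensions of the p-adic numbers of degree prime to three
-/

set_option autoImplicit false

namespace Pool.Agent.Y505.RM

open IsDedekindDomain WithZero
open Pool.Agent.Y505.RL (DV)

section dedekind

variable {S L : Type} [CommRing S] [IsDedekindDomain S] [Field L] [Algebra S L]
  [IsFractionRing S L]

/-- the additive valuation of a prime of a Dedekind domain -/
noncomputable def ofPrime (P : HeightOneSpectrum S) : DV L where
  v x := - log (P.valuation L x)
  mul x y hx hy := by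
    rw [map_mul, log_mul ((Valuation.ne_zero_iff _).2 hx) ((Valuation.ne_zero_iff _).2 hy)]
    ring
  add x y hx hy hxy := by
    have h := (P.valuation L).map_add x y
    have hx' := (Valuation.ne_zero_iff (P.valuation L)).2 hx
    have hy' := (Valuation.ne_zero_iff (P.valuation L)).2 hy
    have hxy' := (Valuation.ne_zero_iff (P.valuation L)).2 hxy
    rcases le_max_iff.1 h with h1 | h1
    · have := (log_le_log hxy' hx').2 h1
      omega
    · have := (log_le_log hxy' hy').2 h1
      omega

lemma g_zero_iff (P : HeightOneSpectrum S) (x : L) :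
    (ofPrime (L := L) P).g 0 x ↔ P.valuation L x ≤ 1 := by
  by_cases hx : x = 0
  · subst hx
    simp [DV.g]
  · have hx' := (Valuation.ne_zero_iff (P.valuation L)).2 hx
    have h := log_le_log hx' (one_ne_zero (α := ℤᵐ⁰))
    rw [log_one] at h
    rw [← h]
    unfold DV.g
    show (x ≠ 0 → 0 ≤ 3 * (- log (P.valuation L x))) ↔ _
    constructor
    · intro h
      have := h hx
      omega
    · intro h _
      omega

lemma g_one_iff (P : HeightOneSpectrum S) (x : L) :
    (ofPrime (L := L) P).g 1 x ↔ P.valuation L x < 1 := by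
  by_cases hx : x = 0
  · subst hx
    simp [DV.g]
  · have hx' := (Valuation.ne_zero_iff (P.valuation L)).2 hx
    have h := log_lt_log hx' (one_ne_zero (α := ℤᵐ⁰))
    rw [log_one] at h
    rw [← h]
    unfold DV.g
    show (x ≠ 0 → 1 ≤ 3 * (- log (P.valuation L x))) ↔ _
    constructor
    · intro h
      have := h hx
      omega
    · intro h _
      omega

/-- anisotropy at a prime whose residue field has no root of the cubic polynomial -/
lemma aniso_ofPrime (P : HeightOneSpectrum S) (a b c : S)
    (hP : ∀ θ : S ⧸ P.asIdeal, θ ^ 3 ≠ Ideal.Quotient.mk P.asIdeal a * θ ^ 2 +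
      Ideal.Quotient.mk P.asIdeal b * θ + Ideal.Quotient.mk P.asIdeal c) (x : Fin 3 → L)
    (hx : ∀ j, (ofPrime (L := L) P).g 0 (x j))
    (hN : (ofPrime (L := L) P).g 1
      (NN (algebraMap S L a) (algebraMap S L b) (algebraMap S L c) x)) :
    ∀ j, (ofPrime (L := L) P).g 1 (x j) := by
  have hmax : P.asIdeal.IsMaximal := P.isMaximal
  letI : Field (S ⧸ P.asIdeal) := Ideal.Quotient.field _
  intro j
  have h1 : ∀ j, ∃ (n : S) (d : P.asIdeal.primeCompl),
      x j * (algebraMap S L d) = algebraMap S L n := fun j =>
    P.exists_primeCompl_mul_eq_of_integer (x j) ((g_zero_iff P (x j)).1 (hx j))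
  choose n d hnd using h1
  have hvd : ∀ a : P.asIdeal.primeCompl, P.valuation L (algebraMap S L a) = 1 := by
    intro a
    rw [HeightOneSpectrum.valuation_of_algebraMap,
      HeightOneSpectrum.intValuation_eq_one_iff_mem_primeCompl]
    exact a.2
  set s : P.asIdeal.primeCompl := d 0 * d 1 * d 2 with hs
  have h2 : ∀ j, ∃ t : S, algebraMap S L s * x j = algebraMap S L t := by
    intro j
    fin_cases j
    · refine ⟨n 0 * d 1 * d 2, ?_⟩
      have := hnd 0
      simp only [hs, Submonoid.coe_mul, map_mul]
      simp only [Fin.zero_eta]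
      linear_combination (algebraMap S L (d 1) * algebraMap S L (d 2)) * this
    · refine ⟨n 1 * d 0 * d 2, ?_⟩
      have := hnd 1
      simp only [hs, Submonoid.coe_mul, map_mul]
      simp only [Fin.mk_one]
      linear_combination (algebraMap S L (d 0) * algebraMap S L (d 2)) * this
    · refine ⟨n 2 * d 0 * d 1, ?_⟩
      have := hnd 2
      simp only [hs, Submonoid.coe_mul, map_mul]
      simp only [Fin.reduceFinMk]
      linear_combination (algebraMap S L (d 0) * algebraMap S L (d 1)) * this
  choose t ht using h2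
  have h3 : algebraMap S L (NN a b c t) = (algebraMap S L s) ^ 3 *
      NN (algebraMap S L a) (algebraMap S L b) (algebraMap S L c) x := by
    rw [NN_map]
    have e := NN_line (algebraMap S L a) (algebraMap S L b) (algebraMap S L c) x x
      (algebraMap S L s) 0
    have e2 : (fun j => algebraMap S L s * x j + 0 * x j) = fun j => algebraMap S L (t j) := by
      funext j
      rw [← ht j]
      ring
    rw [e2] at e
    rw [e]
    ring
  have h4 : P.valuation L (algebraMap S L (NN a b c t)) < 1 := by
    rw [h3, map_mul, map_pow, hvd, one_pow, one_mul]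
    exact (g_one_iff P _).1 hN
  rw [HeightOneSpectrum.valuation_lt_one_iff_mem] at h4
  have h5 : NN (Ideal.Quotient.mk P.asIdeal a) (Ideal.Quotient.mk P.asIdeal b)
      (Ideal.Quotient.mk P.asIdeal c) (fun j => Ideal.Quotient.mk P.asIdeal (t j)) = 0 := by
    have h6 := Ideal.Quotient.eq_zero_iff_mem.2 h4
    rw [NN_map] at h6
    exact h6
  have h6 := aniso_field hP _ h5 j
  have h7 : t j ∈ P.asIdeal := Ideal.Quotient.eq_zero_iff_mem.1 h6
  have h8 : P.valuation L (algebraMap S L (t j)) < 1 :=
    (HeightOneSpectrum.valuation_lt_one_iff_mem (K := L) P (t j)).2 h7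
  rw [← ht j, map_mul, hvd, one_mul] at h8
  exact (g_one_iff P _).2 h8

set_option linter.deprecated false in
/-- a prime above `p` with ramification index and residue degree not divisible by `m` -/
lemma exists_prime (m : ℕ) {R K : Type} [CommRing R] [IsDedekindDomain R] [Field K] [Algebra R K]
    [IsFractionRing R K] [Algebra R S] [Algebra K L] [Algebra R L] [IsScalarTower R S L]
    [IsScalarTower R K L] [Module.Finite R S] [FiniteDimensional K L]
    (p : ℕ) [Fact p.Prime] (hmax : (Ideal.span {(p : R)}).IsMaximal) (hp : (p : R) ≠ 0)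
    (hcard : Nat.card (R ⧸ Ideal.span {(p : R)}) = p) (hK : ¬ m ∣ Module.finrank K L) :
    ∃ P : HeightOneSpectrum S, ¬ (m : ℤ) ∣ (ofPrime (L := L) P).v (p : L) ∧
      (p : S ⧸ P.asIdeal) = 0 ∧ ∃ f : ℕ, Nat.card (S ⧸ P.asIdeal) = p ^ f ∧ ¬ m ∣ f := by
  have hinj : Function.Injective (algebraMap R S) := by
    have h1 : Function.Injective (algebraMap R L) := by
      rw [IsScalarTower.algebraMap_eq R K L]
      exact (algebraMap K L).injective.comp (IsFractionRing.injective R K)
    rw [IsScalarTower.algebraMap_eq R S L] at h1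
    exact Function.Injective.of_comp h1
  have hfaith : FaithfulSMul R S := (faithfulSMul_iff_algebraMap_injective R S).2 hinj
  have hp0 : Ideal.span {(p : R)} ≠ ⊥ := by simpa using hp
  have hsum := Ideal.sum_ramification_inertia (R := R) S K L hp0
  obtain ⟨P, hP, hef⟩ : ∃ P ∈ IsDedekindDomain.primesOverFinset (Ideal.span {(p : R)}) S,
      ¬ m ∣ Ideal.ramificationIdx' (Ideal.span {(p : R)}) P *
        Ideal.inertiaDeg' (Ideal.span {(p : R)}) P := by
    by_contra hcon
    push Not at hcon
    apply hK
    rw [← hsum]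
    exact Finset.dvd_sum hcon
  obtain ⟨hP1, hP2⟩ := (IsDedekindDomain.mem_primesOverFinset_iff hp0 S).1 hP
  have hPb : P ≠ ⊥ := by
    intro h
    exact Ideal.ne_bot_of_liesOver_of_ne_bot hp0 P h
  let v : HeightOneSpectrum S := ⟨P, hP1, hPb⟩
  have hpS : (p : S) ≠ 0 := by
    intro h
    apply hp
    apply hinj
    rw [map_natCast, map_zero, h]
  refine ⟨v, ?_, ?_, ?_⟩
  · have hval : v.valuation L (p : L) = v.intValuation (p : S) := by
      have h0 : algebraMap S L p = p := map_natCast _ p
      rw [← h0]
      exact HeightOneSpectrum.valuation_of_algebraMap (K := L) v (p : S)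
    obtain ⟨n, hn⟩ : ∃ n : ℕ, v.intValuation (p : S) = exp (-(n : ℤ)) :=
      ⟨_, HeightOneSpectrum.intValuation_if_neg v hpS⟩
    have hmap : Ideal.map (algebraMap R S) (Ideal.span {(p : R)}) = Ideal.span {(p : S)} := by
      rw [Ideal.map_span, Set.image_singleton, map_natCast]
    have he : Ideal.ramificationIdx' (Ideal.span {(p : R)}) P = n := by
      apply Ideal.ramificationIdx'_spec
      · rw [hmap, Ideal.span_singleton_le_iff_mem]
        exact (HeightOneSpectrum.intValuation_le_pow_iff_mem v (p : S) n).1 hn.le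
      · rw [hmap, Ideal.span_singleton_le_iff_mem]
        intro hmem
        have := (HeightOneSpectrum.intValuation_le_pow_iff_mem v (p : S) (n + 1)).2 hmem
        rw [hn, exp_le_exp] at this
        push_cast at this
        omega
    have hv2 : (ofPrime (L := L) v).v (p : L) = n := by
      show - log (v.valuation L p) = n
      rw [hval, hn, log_exp]
      ring
    rw [hv2, ← he]
    intro h
    exact hef (Dvd.dvd.mul_right (by exact_mod_cast h) _)
  · have hmem : (algebraMap R S) (p : R) ∈ P := by
      have h1 : (p : R) ∈ Ideal.span {(p : R)} := Ideal.mem_span_singleton_self _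
      rw [hP2.over] at h1
      exact h1
    have h3 := Ideal.Quotient.eq_zero_iff_mem.2 hmem
    rw [map_natCast, map_natCast] at h3
    exact h3
  · refine ⟨Ideal.inertiaDeg' (Ideal.span {(p : R)}) P, ?_, fun h => hef (Dvd.dvd.mul_left h _)⟩
    rw [Ideal.inertiaDeg'_algebraMap]
    letI : Field (R ⧸ Ideal.span {(p : R)}) := Ideal.Quotient.field _
    have := Module.natCard_eq_pow_finrank (K := R ⧸ Ideal.span {(p : R)}) (V := S ⧸ P)
    rw [hcard] at this
    exact this

end dedekind

end Pool.Agent.Y505.RM
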