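import Pool.Agent.Y505.RM.Line

/-!
# Norm forms of cubic extensions, given by the cubic polynomial
-/

set_option autoImplicit false

namespace Pool.Agent.Y505.RM

open Polynomial
open Pool.Agent.Y505.RL (DV)

/-- the determinant of a matrix with three rows and columns -/
def D {R : Type} [CommRing R] (p0 p1 p2 q0 q1 q2 r0 r1 r2 : R) : R :=
  p0 * (q1 * r2 - q2 * r1) - p1 * (q0 * r2 - q2 * r0) + p2 * (q0 * r1 - q1 * r0)

/-- the norm of `x 0 + x 1 T + x 2 T²` modulo `T³ - a T² - b T - c` -/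
def NN {R : Type} [CommRing R] (a b c : R) (x : Fin 3 → R) : R :=
  D (x 0) (c * x 2) (c * x 1 + a * c * x 2) (x 1) (x 0 + b * x 2) (b * x 1 + (a * b + c) * x 2)
    (x 2) (x 1 + a * x 2) (x 0 + a * x 1 + (a ^ 2 + b) * x 2)

/-- the polarisation -/
def NN1 {R : Type} [CommRing R] (a b c : R) (x y : Fin 3 → R) : R :=
  D (y 0) (c * y 2) (c * y 1 + a * c * y 2) (x 1) (x 0 + b * x 2) (b * x 1 + (a * b + c) * x 2)
    (x 2) (x 1 + a * x 2) (x 0 + a * x 1 + (a ^ 2 + b) * x 2) +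
  D (x 0) (c * x 2) (c * x 1 + a * c * x 2) (y 1) (y 0 + b * y 2) (b * y 1 + (a * b + c) * y 2)
    (x 2) (x 1 + a * x 2) (x 0 + a * x 1 + (a ^ 2 + b) * x 2) +
  D (x 0) (c * x 2) (c * x 1 + a * c * x 2) (x 1) (x 0 + b * x 2) (b * x 1 + (a * b + c) * x 2)
    (y 2) (y 1 + a * y 2) (y 0 + a * y 1 + (a ^ 2 + b) * y 2)

lemma D_line {R : Type} [CommRing R] (s t p0 p1 p2 q0 q1 q2 r0 r1 r2 p0' p1' p2' q0' q1' q2' r0'
    r1' r2' : R) :
    D (s * p0 + t * p0') (s * p1 + t * p1') (s * p2 + t * p2') (s * q0 + t * q0')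
      (s * q1 + t * q1') (s * q2 + t * q2') (s * r0 + t * r0') (s * r1 + t * r1')
      (s * r2 + t * r2') = s ^ 3 * D p0 p1 p2 q0 q1 q2 r0 r1 r2 +
      s ^ 2 * t * (D p0' p1' p2' q0 q1 q2 r0 r1 r2 + D p0 p1 p2 q0' q1' q2' r0 r1 r2 +
        D p0 p1 p2 q0 q1 q2 r0' r1' r2') +
      s * t ^ 2 * (D p0 p1 p2 q0' q1' q2' r0' r1' r2' + D p0' p1' p2' q0 q1 q2 r0' r1' r2' +
        D p0' p1' p2' q0' q1' q2' r0 r1 r2) + t ^ 3 * D p0' p1' p2' q0' q1' q2' r0' r1' r2' := by
  unfold D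
  ring

lemma NN_line {R : Type} [CommRing R] (a b c : R) (x y : Fin 3 → R) (s t : R) :
    NN a b c (fun j => s * x j + t * y j) = s ^ 3 * NN a b c x + s ^ 2 * t * NN1 a b c x y +
      s * t ^ 2 * NN1 a b c y x + t ^ 3 * NN a b c y := by
  unfold NN NN1
  rw [← D_line]
  congr 1 <;> ring

lemma NN1_zero_left {R : Type} [CommRing R] (a b c : R) (x y : Fin 3 → R) (hx : ∀ j, x j = 0) :
    NN1 a b c x y = 0 := by
  unfold NN1 D
  simp only [hx]
  ring

lemma NN1_zero_right {R : Type} [CommRing R] (a b c : R) (x y : Fin 3 → R) (hy : ∀ j, y j = 0) :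
    NN1 a b c x y = 0 := by
  unfold NN1 D
  simp only [hy]
  ring

lemma D_map {R S : Type} [CommRing R] [CommRing S] (φ : R →+* S)
    (p0 p1 p2 q0 q1 q2 r0 r1 r2 : R) : φ (D p0 p1 p2 q0 q1 q2 r0 r1 r2) =
      D (φ p0) (φ p1) (φ p2) (φ q0) (φ q1) (φ q2) (φ r0) (φ r1) (φ r2) := by
  unfold D
  simp only [map_add, map_sub, map_mul]

lemma NN_map {R S : Type} [CommRing R] [CommRing S] (φ : R →+* S) (a b c : R) (x : Fin 3 → R) :
    φ (NN a b c x) = NN (φ a) (φ b) (φ c) fun j => φ (x j) := by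
  unfold NN
  rw [D_map]
  simp only [map_add, map_mul, map_pow]

section est

variable {K : Type} [Field K] (d : DV K)

lemma D_est {α β γ : ℤ} {p0 p1 p2 q0 q1 q2 r0 r1 r2 : K} (h1 : d.g α p0) (h2 : d.g α p1)
    (h3 : d.g α p2) (h4 : d.g β q0) (h5 : d.g β q1) (h6 : d.g β q2) (h7 : d.g γ r0)
    (h8 : d.g γ r1) (h9 : d.g γ r2) : d.g (α + (β + γ)) (D p0 p1 p2 q0 q1 q2 r0 r1 r2) := by
  unfold D
  exact d.g_add (d.g_sub (d.g_mul h1 (d.g_sub (d.g_mul h5 h9) (d.g_mul h6 h8)))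
    (d.g_mul h2 (d.g_sub (d.g_mul h4 h9) (d.g_mul h6 h7))))
    (d.g_mul h3 (d.g_sub (d.g_mul h4 h8) (d.g_mul h5 h7)))

variable {a b c : K} (ha : d.g 0 a) (hb : d.g 0 b) (hc : d.g 0 c)

include ha hb hc in
lemma rows {α : ℤ} {x : Fin 3 → K} (hx : ∀ j, d.g α (x j)) :
    d.g α (c * x 2) ∧ d.g α (c * x 1 + a * c * x 2) ∧ d.g α (x 0 + b * x 2) ∧
    d.g α (b * x 1 + (a * b + c) * x 2) ∧ d.g α (x 1 + a * x 2) ∧
    d.g α (x 0 + a * x 1 + (a ^ 2 + b) * x 2) := by
  have m : ∀ {t y : K}, d.g 0 t → d.g α y → d.g α (t * y) := by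
    intro t y ht hy
    have := d.g_mul ht hy
    rwa [zero_add] at this
  have m0 : ∀ {t y : K}, d.g 0 t → d.g 0 y → d.g 0 (t * y) := by
    intro t y ht hy
    have := d.g_mul ht hy
    rwa [zero_add] at this
  refine ⟨m hc (hx 2), d.g_add (m hc (hx 1)) (m (m0 ha hc) (hx 2)),
    d.g_add (hx 0) (m hb (hx 2)), d.g_add (m hb (hx 1)) (m (d.g_add (m0 ha hb) hc) (hx 2)),
    d.g_add (hx 1) (m ha (hx 2)), d.g_add (d.g_add (hx 0) (m ha (hx 1)))
      (m (d.g_add ?_ hb) (hx 2))⟩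
  rw [sq]
  exact m0 ha ha

include ha hb hc in
lemma NN_est {α : ℤ} {x : Fin 3 → K} (hx : ∀ j, d.g α (x j)) : d.g (3 * α) (NN a b c x) := by
  obtain ⟨h1, h2, h3, h4, h5, h6⟩ := rows d ha hb hc hx
  exact d.g_mono (by omega) (D_est d (hx 0) h1 h2 (hx 1) h3 h4 (hx 2) h5 h6)

include ha hb hc in
lemma NN1_est {α β : ℤ} {x y : Fin 3 → K} (hx : ∀ j, d.g α (x j)) (hy : ∀ j, d.g β (y j)) :
    d.g (2 * α + β) (NN1 a b c x y) := by
  obtain ⟨h1, h2, h3, h4, h5, h6⟩ := rows d ha hb hc hx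
  obtain ⟨k1, k2, k3, k4, k5, k6⟩ := rows d ha hb hc hy
  exact d.g_add (d.g_add
    (d.g_mono (by omega) (D_est d (hy 0) k1 k2 (hx 1) h3 h4 (hx 2) h5 h6))
    (d.g_mono (by omega) (D_est d (hx 0) h1 h2 (hy 1) k3 k4 (hx 2) h5 h6)))
    (d.g_mono (by omega) (D_est d (hx 0) h1 h2 (hx 1) h3 h4 (hy 2) k5 k6))

/-- the norm form as an anisotropic integral cubic form -/
def cub (h : ∀ x : Fin 3 → K, (∀ j, d.g 0 (x j)) → d.g 1 (NN a b c x) → ∀ j, d.g 1 (x j)) :
    Cub d where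
  N := NN a b c
  N1 := NN1 a b c
  line x y s t := NN_line a b c x y s t
  zero_left x y hx := NN1_zero_left a b c x y hx
  zero_right x y hy := NN1_zero_right a b c x y hy
  est _ _ hx := NN_est d ha hb hc hx
  est1 _ _ _ _ hx hy := NN1_est d ha hb hc hx hy
  aniso := h

end est

/-- anisotropy over a field in which the polynomial has no root -/
lemma aniso_field {k : Type} [Field k] {a b c : k} (hk : ∀ θ : k, θ ^ 3 ≠ a * θ ^ 2 + b * θ + c)
    (x : Fin 3 → k) (hx : NN a b c x = 0) : ∀ j, x j = 0 := by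
  let Mx : Matrix (Fin 3) (Fin 3) k :=
    !![x 0, c * x 2, c * x 1 + a * c * x 2; x 1, x 0 + b * x 2, b * x 1 + (a * b + c) * x 2;
      x 2, x 1 + a * x 2, x 0 + a * x 1 + (a ^ 2 + b) * x 2]
  have hdet : Mx.det = 0 := by
    rw [← hx, Matrix.det_fin_three]
    simp [Mx, NN, D]
    ring
  obtain ⟨y, hy0, hy⟩ := Matrix.exists_mulVec_eq_zero_iff.2 hdet
  have r0 : x 0 * y 0 + c * x 2 * y 1 + (c * x 1 + a * c * x 2) * y 2 = 0 := by
    have := congrFun hy 0
    simpa [Mx, Matrix.mulVec, dotProduct, Fin.sum_univ_three] using this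
  have r1 : x 1 * y 0 + (x 0 + b * x 2) * y 1 + (b * x 1 + (a * b + c) * x 2) * y 2 = 0 := by
    have := congrFun hy 1
    simpa [Mx, Matrix.mulVec, dotProduct, Fin.sum_univ_three] using this
  have r2 : x 2 * y 0 + (x 1 + a * x 2) * y 1 + (x 0 + a * x 1 + (a ^ 2 + b) * x 2) * y 2 = 0 := by
    have := congrFun hy 2
    simpa [Mx, Matrix.mulVec, dotProduct, Fin.sum_univ_three] using this
  let g : k[X] := X ^ 3 - C a * X ^ 2 - C b * X - C c
  have hg : g = X ^ 3 - C a * X ^ 2 - C b * X - C c := rfl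
  have hgm : g.Monic := by
    rw [hg]
    monicity!
  have hgd : g.natDegree = 3 := by
    rw [hg]
    compute_degree!
  have hirr : Irreducible g := by
    rw [hgm.irreducible_iff_roots_eq_zero_of_degree_le_three (by omega) (by omega)]
    rw [Multiset.eq_zero_iff_forall_notMem]
    intro θ hθ
    rw [mem_roots hgm.ne_zero, IsRoot.def, hg] at hθ
    simp only [eval_sub, eval_pow, eval_X, eval_mul, eval_C] at hθ
    exact hk θ (by linear_combination hθ)
  let q : (Fin 3 → k) → k[X] := fun y => C (y 0) + C (y 1) * X + C (y 2) * X ^ 2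
  have hprod : g ∣ q x * q y := by
    refine ⟨C (x 2 * y 2) * X + C (x 1 * y 2 + x 2 * y 1 + a * (x 2 * y 2)), ?_⟩
    have e : q x * q y - g * (C (x 2 * y 2) * X + C (x 1 * y 2 + x 2 * y 1 + a * (x 2 * y 2))) =
        C (x 0 * y 0 + c * x 2 * y 1 + (c * x 1 + a * c * x 2) * y 2) +
        C (x 1 * y 0 + (x 0 + b * x 2) * y 1 + (b * x 1 + (a * b + c) * x 2) * y 2) * X +
        C (x 2 * y 0 + (x 1 + a * x 2) * y 1 + (x 0 + a * x 1 + (a ^ 2 + b) * x 2) * y 2) *
          X ^ 2 := by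
      simp only [q, hg, map_add, map_mul, map_pow]
      ring
    rw [r0, r1, r2, map_zero, zero_mul, zero_mul, add_zero, add_zero] at e
    exact sub_eq_zero.1 e
  have hq : ∀ y : Fin 3 → k, g ∣ q y → ∀ j, y j = 0 := by
    intro y hy
    have hdeg : (q y).natDegree < 3 := by
      have : (q y).natDegree ≤ 2 := by
        simp only [q]
        compute_degree
      omega
    have hz : q y = 0 := by
      by_contra hne
      have := natDegree_le_of_dvd hy hne
      omega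
    have c0 := congrArg (fun p => coeff p 0) hz
    have c1 := congrArg (fun p => coeff p 1) hz
    have c2 := congrArg (fun p => coeff p 2) hz
    simp [q, coeff_X, coeff_C] at c0 c1 c2
    intro j
    fin_cases j
    · exact c0
    · exact c1
    · exact c2
  rcases hirr.prime.dvd_or_dvd hprod with h | h
  · exact hq x h
  · exact absurd (funext (hq y h)) hy0

/-- a monic cubic polynomial over `ℤ`, irreducible modulo `p` -/
lemma exists_irred (p : ℕ) [Fact p.Prime] : ∃ a b c : ℤ, Irreducible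
    (X ^ 3 - C (a : ZMod p) * X ^ 2 - C (b : ZMod p) * X - C (c : ZMod p)) := by
  obtain ⟨θ, hθ⟩ := Field.exists_primitive_element (ZMod p) (GaloisField p 3)
  have hd : (minpoly (ZMod p) θ).natDegree = 3 := by
    rw [(Field.primitive_element_iff_minpoly_natDegree_eq (ZMod p) θ).1 hθ]
    exact GaloisField.finrank p (by norm_num)
  have hint : IsIntegral (ZMod p) θ := Algebra.IsIntegral.isIntegral θ
  have hirr := minpoly.irreducible hint
  have hmon := minpoly.monic hint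
  set m := minpoly (ZMod p) θ with hm
  have hcast : ∀ z : ZMod p, ((-(z.val : ℤ) : ℤ) : ZMod p) = - z := by
    intro z
    push_cast
    rw [ZMod.natCast_zmod_val]
  refine ⟨-((m.coeff 2).val : ℤ), -((m.coeff 1).val : ℤ), -((m.coeff 0).val : ℤ), ?_⟩
  rw [hcast, hcast, hcast]
  have e : m = X ^ 3 - C (-m.coeff 2) * X ^ 2 - C (-m.coeff 1) * X - C (-m.coeff 0) := by
    have h3 : m.coeff 3 = 1 := by
      have := hmon.coeff_natDegree
      rwa [hd] at this
    conv_lhs => rw [m.as_sum_range_C_mul_X_pow, hd]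
    simp only [Finset.sum_range_succ, Finset.sum_range_zero, h3, map_one, map_neg]
    ring
  rw [← e]
  exact hirr

/-- no root in an extension of degree prime to three -/
lemma no_root {p : ℕ} [Fact p.Prime] {k : Type} [Field k] [Finite k] [CharP k p] {f : ℕ}
    (hf : Nat.card k = p ^ f) (h3 : ¬ 3 ∣ f) {a b c : ℤ} (hirr : Irreducible
      (X ^ 3 - C (a : ZMod p) * X ^ 2 - C (b : ZMod p) * X - C (c : ZMod p))) (θ : k) :
    θ ^ 3 ≠ a * θ ^ 2 + b * θ + c := by
  intro hθ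
  letI : Algebra (ZMod p) k := ZMod.algebra k p
  set g : (ZMod p)[X] := X ^ 3 - C (a : ZMod p) * X ^ 2 - C (b : ZMod p) * X - C (c : ZMod p)
    with hg
  have hgm : g.Monic := by
    rw [hg]
    monicity!
  have hgd : g.natDegree = 3 := by
    rw [hg]
    compute_degree!
  have hroot : aeval θ g = 0 := by
    rw [hg]
    simp only [map_sub, map_mul, map_pow, aeval_X, aeval_C, map_intCast]
    linear_combination hθ
  have hmin := minpoly.eq_of_irreducible_of_monic hirr hroot hgm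
  have hfin : Module.finrank (ZMod p) k = f := by
    have h1 := Module.natCard_eq_pow_finrank (K := ZMod p) (V := k)
    rw [hf, Nat.card_zmod] at h1
    exact (Nat.pow_right_injective (Fact.out : p.Prime).two_le h1).symm
  have hdvd := minpoly.degree_dvd (K := ZMod p) (x := θ) (Algebra.IsIntegral.isIntegral θ)
  rw [← hmin, hgd, hfin] at hdvd
  exact h3 hdvd

end Pool.Agent.Y505.RM
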